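import Pool.Agent.H93.SC.Targets2

/-!
C2 (MP_f2954d_ag): a discrete valuation of a generic complete intersection which is trivial on `K`
and has nonzero index is `p`-adic for an irreducible polynomial in the free variables.
-/

namespace Pool.Agent.H70.KN

open SC MvPolynomial

/-! ### The number of pivots -/

lemma card_nonpivot {J : Type} [Fintype J] {K : Type} [Field K] (S : J → Sys K)
    (hS : ∀ j, (S j).Nz) :
    Nat.card {x : Var S // ¬ Pivot S x} + Fintype.card J = Nat.card (Var S) := by
  classical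
  have e : {x : Var S // Pivot S x} ≃ J :=
    { toFun := fun x => x.1.1
      invFun := fun j => ⟨⟨j, (show ∃ i, (S j).s i ≠ 0 from hS j).choose⟩, ⟨hS j, rfl⟩⟩
      left_inv := by
        rintro ⟨⟨j, i⟩, h⟩
        obtain ⟨h1, hi⟩ := h
        have hi' : i = (show ∃ i, (S j).s i ≠ 0 from hS j).choose := hi
        apply Subtype.ext
        exact congrArg (Sigma.mk j) hi'.symm
      right_inv := fun j => rfl }
  have h1 : Nat.card (Var S) = Nat.card {x : Var S // Pivot S x} +
      Nat.card {x : Var S // ¬ Pivot S x} := by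
    rw [← Nat.card_sum]
    exact Nat.card_congr (Equiv.sumCompl (Pivot S)).symm
  have h2 : Nat.card {x : Var S // Pivot S x} = Fintype.card J := by
    rw [Nat.card_congr e, Nat.card_eq_fintype_card]
  omega

lemma card_nonpivot' {J : Type} [Fintype J] {K : Type} (S : J → Sys K)
    (i0 : ∀ j, Fin (S j).r) :
    Nat.card {x : Var S // x.2 ≠ i0 x.1} + Fintype.card J = Nat.card (Var S) := by
  classical
  have e : {x : Var S // x.2 = i0 x.1} ≃ J :=
    { toFun := fun x => x.1.1
      invFun := fun j => ⟨⟨j, i0 j⟩, rfl⟩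
      left_inv := by
        rintro ⟨⟨j, i⟩, h⟩
        simp only at h
        subst h
        rfl
      right_inv := fun j => rfl }
  have h1 : Nat.card (Var S) = Nat.card {x : Var S // x.2 = i0 x.1} +
      Nat.card {x : Var S // x.2 ≠ i0 x.1} := by
    rw [← Nat.card_sum]
    exact Nat.card_congr (Equiv.sumCompl (fun x : Var S => x.2 = i0 x.1)).symm
  have h2 : Nat.card {x : Var S // x.2 = i0 x.1} = Fintype.card J := by
    rw [Nat.card_congr e, Nat.card_eq_fintype_card]
  omega

/-! ### Irreducible elements of prime ideals of coheight `n - 1` -/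

lemma dvd_of_aeval_eq_zero {K E σ B : Type} [Field K] [Field E] [Algebra K E] [Finite σ]
    (y : σ → E) (g : B → σ) (hg : Function.Injective g) (hB : Nat.card σ ≤ Nat.card B + 1)
    (hind : AlgebraicIndependent K (fun b => y (g b))) (p : MvPolynomial σ K) (hp : Irreducible p)
    (hp0 : aeval y p = 0) (q : MvPolynomial σ K) (hq : aeval y q = 0) : p ∣ q := by
  classical
  have : Fintype σ := Fintype.ofFinite σ
  have hBf : Finite B := Finite.of_injective g hg
  have hprime : Prime p := hp.prime
  have hId : (Ideal.span {p}).IsPrime := (Ideal.span_singleton_prime hp.ne_zero).2 hprime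
  set A := MvPolynomial σ K ⧸ Ideal.span {p} with hA
  have : IsDomain A := Ideal.Quotient.isDomain _
  by_contra hpq
  have hq0 : (Ideal.Quotient.mk (Ideal.span {p}) q : A) ≠ 0 := by
    intro h
    rw [Ideal.Quotient.eq_zero_iff_mem, Ideal.mem_span_singleton] at h
    exact hpq h
  let ψ : A →ₐ[K] E := Ideal.Quotient.liftₐ (Ideal.span {p}) (aeval y) (by
    intro a ha
    rw [Ideal.mem_span_singleton] at ha
    obtain ⟨c, rfl⟩ := ha
    rw [map_mul, hp0, zero_mul])
  let X' : σ → A := fun i => Ideal.Quotient.mk (Ideal.span {p}) (X i)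
  have hψX : ∀ i, ψ (X' i) = y i := by
    intro i
    change aeval y (X i) = y i
    simp
  have haev : ∀ r : MvPolynomial σ K, aeval X' r = Ideal.Quotient.mk (Ideal.span {p}) r := by
    intro r
    have : (aeval X' : MvPolynomial σ K →ₐ[K] A) = Ideal.Quotient.mkₐ K (Ideal.span {p}) := by
      apply MvPolynomial.algHom_ext
      intro i
      rw [aeval_X]; rfl
    rw [this]; rfl
  -- the transcendence degree
  have hadj : Algebra.adjoin K (Set.range X') = ⊤ := by
    rw [eq_top_iff]
    intro a _
    obtain ⟨r, rfl⟩ := Ideal.Quotient.mk_surjective a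
    rw [← haev, Algebra.adjoin_range_eq_range_aeval]
    exact ⟨r, rfl⟩
  have halg : Algebra.IsAlgebraic (Algebra.adjoin K (Set.range X')) A := by
    refine ⟨fun a => ?_⟩
    have ha : a ∈ Algebra.adjoin K (Set.range X') := by rw [hadj]; trivial
    exact isAlgebraic_algebraMap (⟨a, ha⟩ : Algebra.adjoin K (Set.range X'))
  have htr : Algebra.trdeg K A ≤ Nat.card B := by
    by_contra hlt
    push Not at hlt
    have hle : Cardinal.mk σ ≤ Algebra.trdeg K A := by
      rw [← Nat.cast_card]
      refine le_trans (Nat.cast_le.2 hB) ?_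
      have h := Order.succ_le_of_lt hlt
      rw [Cardinal.succ_natCast] at h
      rw [Nat.cast_add, Nat.cast_one]
      exact h
    have hb := Algebra.IsAlgebraic.isTranscendenceBasis_of_le_trdeg_of_finite K X' hle
    have h1 : aeval X' p = 0 := by
      rw [haev, Ideal.Quotient.eq_zero_iff_mem, Ideal.mem_span_singleton]
    have h2 := hb.1
    rw [algebraicIndependent_iff] at h2
    exact hp.ne_zero (h2 p h1)
  let Y : B → A := fun b => X' (g b)
  have hYi : AlgebraicIndependent K Y := by
    have : AlgebraicIndependent K (ψ ∘ Y) := by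
      convert hind using 1
      ext b
      exact hψX _
    exact AlgebraicIndependent.of_comp ψ this
  have hYb : IsTranscendenceBasis K Y := by
    refine AlgebraicIndependent.isTranscendenceBasis_of_trdeg_le_of_finite hYi ?_
    rw [← Nat.cast_card]
    exact htr
  have hYalg := hYb.isAlgebraic
  obtain ⟨c, hc0, hc⟩ := (hYalg.1 (Ideal.Quotient.mk (Ideal.span {p}) q)).exists_nonzero_dvd
    (mem_nonZeroDivisors_of_ne_zero hq0)
  obtain ⟨d, hd⟩ := hc
  have hcm : (c : A) ∈ (aeval Y : MvPolynomial B K →ₐ[K] A).range := by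
    rw [← Algebra.adjoin_range_eq_range_aeval]
    exact c.2
  obtain ⟨c', hc'⟩ := hcm
  have h0 : ψ (c : A) = 0 := by
    have h3 : (c : A) = Ideal.Quotient.mk (Ideal.span {p}) q * d := hd
    rw [h3, map_mul]
    have : ψ (Ideal.Quotient.mk (Ideal.span {p}) q) = 0 := hq
    rw [this, zero_mul]
  have h4 : aeval (fun b => y (g b)) c' = 0 := by
    rw [← h0, ← hc']
    have : (aeval (fun b => y (g b)) : MvPolynomial B K →ₐ[K] E) = ψ.comp (aeval Y) := by
      apply MvPolynomial.algHom_ext
      intro i
      simp only [aeval_X, AlgHom.comp_apply]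
      exact (hψX _).symm
    rw [this]; rfl
  rw [algebraicIndependent_iff] at hind
  have h5 := hind c' h4
  rw [h5] at hc'
  apply hc0
  ext
  rw [← hc']
  simp

/-! ### Transcendence degrees -/

lemma isAlgebraic_adjoin {F G C : Type} [Field F] [Field G] [Algebra F G] [Field C] [Algebra C G]
    (s : Set G) (hC : ∀ c : C, IsAlgebraic (Algebra.adjoin F s) (algebraMap C G c))
    (halg : Algebra.IsAlgebraic C G) : Algebra.IsAlgebraic (Algebra.adjoin F s) G := by
  refine ⟨fun g => ?_⟩
  let D := Subalgebra.algebraicClosure (Algebra.adjoin F s) G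
  obtain ⟨p, hp0, hp⟩ := halg.1 g
  let φ : C →+* D := (algebraMap C G).codRestrict D.toSubring (fun c => hC c)
  have hφ : Function.Injective φ := φ.injective
  have hg : IsAlgebraic D g := by
    refine ⟨p.map φ, (Polynomial.map_ne_zero_iff hφ).2 hp0, ?_⟩
    have : (algebraMap D G).comp φ = algebraMap C G := by
      ext c; rfl
    rw [Polynomial.aeval_def, Polynomial.eval₂_map, this]
    exact hp
  exact hg.restrictScalars (Algebra.adjoin F s)

/-- the image of an adjoined field consists of algebraic elements -/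
lemma alg_of_mem_adjoin {R F E G : Type} [Field R] [Field F] [Field E] [Field G] [Algebra R G]
    [Algebra F E] [Algebra E G] (s : Set G) (t : Set E)
    (hF : ∀ c : F, IsAlgebraic (Algebra.adjoin R s) (algebraMap E G (algebraMap F E c)))
    (ht : ∀ c ∈ t, IsAlgebraic (Algebra.adjoin R s) (algebraMap E G c)) (e : E)
    (he : e ∈ IntermediateField.adjoin F t) :
    IsAlgebraic (Algebra.adjoin R s) (algebraMap E G e) := by
  induction he using IntermediateField.adjoin_induction with
  | mem x hx => exact ht x hx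
  | algebraMap x => exact hF x
  | add x y _ _ hx hy => rw [map_add]; exact hx.add hy
  | inv x _ hx => rw [map_inv₀]; exact hx.inv
  | mul x y _ _ hx hy => rw [map_mul]; exact hx.mul hy

lemma genX_basis {J : Type} {K : Type} [Field K] (S : J → Sys K) :
    IsTranscendenceBasis K (genX S) := by
  have : Algebra.IsAlgebraic (MvPolynomial {x : Var S // ¬ Pivot S x} K) (Gen S) :=
    IsLocalization.isAlgebraic _ (nonZeroDivisors (MvPolynomial {x : Var S // ¬ Pivot S x} K))
  exact (IsTranscendenceBasis.mvPolynomial {x : Var S // ¬ Pivot S x} K).algebraMap_comp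

/-- the abstract count -/
lemma abs_count {k K k1 E J' : Type} [Field k] [Field K] [Field k1] [Field E] [Algebra k K]
    [Algebra K E] [Algebra k E] [Algebra k k1] [Algebra k1 E] [IsScalarTower k K E]
    [IsScalarTower k k1 E] [Fintype J'] (T : J' → Sys E) (hT : ∀ j, (T j).Nz)
    (hI : Idx T k1 ≠ 0) {ι : Type} (y : ι → E)
    (hk1 : ∀ c : k1, algebraMap k1 E c ∈ IntermediateField.adjoin K (Set.range y))
    (hTm : ∀ j i, (T j).s i ∈ IntermediateField.adjoin K (Set.range y)) :
    Algebra.trdeg k1 E = (Fintype.card J' : ℕ) ∧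
    ∃ B : Set E, B ⊆ Set.range y ∧ AlgebraicIndependent K (fun b : B => (b : E)) ∧
      Cardinal.mk B = Algebra.trdeg K E := by
  classical
  have hG : AlgebraicIndependent k1 (genU T) ∧ Module.finrank (kU k1 (genU T)) (Gen T) ≠ 0 := by
    unfold Idx at hI
    split_ifs at hI with h
    · exact ⟨h, hI⟩
    · exact absurd rfl hI
  obtain ⟨hW, hfin⟩ := hG
  have hfd : FiniteDimensional (kU k1 (genU T)) (Gen T) := Module.finite_of_finrank_pos
    (Nat.pos_of_ne_zero hfin)
  have halg : Algebra.IsAlgebraic (kU k1 (genU T)) (Gen T) := inferInstance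
  have hX := genX_basis T
  -- part (a)
  have h1 : Algebra.IsAlgebraic (Algebra.adjoin k1 (Set.range (genU T))) (Gen T) := by
    refine isAlgebraic_adjoin (C := kU k1 (genU T)) _ ?_ halg
    intro c
    refine alg_of_mem_adjoin (E := Gen T) (F := k1) _ (Set.range (genU T)) ?_ ?_ _ c.2
    · intro c
      exact isAlgebraic_algebraMap (algebraMap k1 (Algebra.adjoin k1 (Set.range (genU T))) c)
    · intro c hc
      exact isAlgebraic_algebraMap (⟨c, Algebra.subset_adjoin hc⟩ :
        Algebra.adjoin k1 (Set.range (genU T)))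
  have hWb : IsTranscendenceBasis k1 (genU T) := hW.isTranscendenceBasis_iff_isAlgebraic.2 h1
  have hc1 : Algebra.trdeg k1 (Gen T) = Cardinal.mk (Var T) := hWb.cardinalMk_eq_trdeg.symm
  have hc2 : Algebra.trdeg E (Gen T) = Cardinal.mk {x : Var T // ¬ Pivot T x} :=
    hX.cardinalMk_eq_trdeg.symm
  have hc3 := trdeg_add_eq k1 E (A := Gen T)
  have hfv : Finite (Var T) := inferInstance
  have hcard := card_nonpivot T hT
  have ha : Algebra.trdeg k1 E = (Fintype.card J' : ℕ) := by
    rw [hc1, hc2, ← Nat.cast_card, ← Nat.cast_card (α := Var T), ← hcard, Nat.cast_add,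
      add_comm ((Nat.card {x : Var T // ¬ Pivot T x} : ℕ) : Cardinal)] at hc3
    exact (Cardinal.add_nat_inj _).1 hc3
  refine ⟨ha, ?_⟩
  -- part (b)
  let φ : E → Gen T := algebraMap E (Gen T)
  have hφ : Function.Injective φ := (algebraMap E (Gen T)).injective
  let t : Set (Gen T) := Set.range (fun i => φ (y i)) ∪ Set.range (genX T)
  have hKt : ∀ c : K, IsAlgebraic (Algebra.adjoin K t) (algebraMap E (Gen T) (algebraMap K E c)) := by
    intro c
    rw [← IsScalarTower.algebraMap_apply]
    exact isAlgebraic_algebraMap (algebraMap K (Algebra.adjoin K t) c)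
  have hyt : ∀ c ∈ Set.range y, IsAlgebraic (Algebra.adjoin K t) (algebraMap E (Gen T) c) := by
    rintro _ ⟨i, rfl⟩
    exact isAlgebraic_algebraMap (⟨φ (y i), Algebra.subset_adjoin (Or.inl ⟨i, rfl⟩)⟩ :
        Algebra.adjoin K t)
  have hXt : ∀ x, IsAlgebraic (Algebra.adjoin K t) (genX T x) := by
    intro x
    exact isAlgebraic_algebraMap (⟨genX T x, Algebra.subset_adjoin (Or.inr ⟨x, rfl⟩)⟩ :
        Algebra.adjoin K t)
  have hF0 : ∀ e ∈ IntermediateField.adjoin K (Set.range y),
      IsAlgebraic (Algebra.adjoin K t) (algebraMap E (Gen T) e) := fun e he =>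
    alg_of_mem_adjoin (F := K) t (Set.range y) hKt hyt e he
  have hU : ∀ x, IsAlgebraic (Algebra.adjoin K t) (genU T x) := by
    intro x
    unfold genU
    split_ifs with h
    · apply IsAlgebraic.neg
      apply (Subalgebra.algebraicClosure (Algebra.adjoin K t) (Gen T)).sum_mem
      intro i _
      apply IsAlgebraic.mul _ (hXt _)
      apply hF0
      exact div_mem (hTm _ _) (hTm _ _)
    · exact hXt _
  have h2 : Algebra.IsAlgebraic (Algebra.adjoin K t) (Gen T) := by
    refine isAlgebraic_adjoin (C := kU k1 (genU T)) _ ?_ halg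
    intro c
    refine alg_of_mem_adjoin (E := Gen T) (F := k1) _ (Set.range (genU T)) ?_ ?_ _ c.2
    · intro c
      have := hF0 _ (hk1 c)
      rw [← IsScalarTower.algebraMap_apply] at this
      exact this
    · rintro _ ⟨x, rfl⟩
      exact hU x
  have hXK : AlgebraicIndependent K (genX T) :=
    hX.1.restrictScalars (algebraMap K E).injective
  obtain ⟨u, hu1, hu2, hu⟩ := exists_isTranscendenceBasis_between (R := K) (Set.range (genX T)) t
    Set.subset_union_right hXK.to_subtype_range
  have hKG : Algebra.trdeg K E + Algebra.trdeg E (Gen T) = Algebra.trdeg K (Gen T) :=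
    trdeg_add_eq K E (A := Gen T)
  have hcu : Cardinal.mk u = Algebra.trdeg K (Gen T) := hu.cardinalMk_eq_trdeg
  let B : Set E := {e | φ e ∈ u ∧ φ e ∉ Set.range (genX T)}
  have hBy : B ⊆ Set.range y := by
    rintro e ⟨h1, h2⟩
    rcases hu2 h1 with h3 | h3
    · obtain ⟨i, hi⟩ := h3
      exact ⟨i, hφ hi⟩
    · exact absurd h3 h2
  have hBi : AlgebraicIndependent K (fun b : B => (b : E)) := by
    have h3 : AlgebraicIndependent K (fun b : B => φ (b : E)) := by
      exact hu.1.comp (fun b : B => (⟨φ b, b.2.1⟩ : u)) (fun a b hab => by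
        apply Subtype.ext
        apply hφ
        exact congrArg Subtype.val hab)
    exact AlgebraicIndependent.of_comp (IsScalarTower.toAlgHom K E (Gen T)) h3
  have hcB : Cardinal.mk B = Cardinal.mk (u \ Set.range (genX T) : Set (Gen T)) := by
    have : u \ Set.range (genX T) = φ '' B := by
      ext g
      constructor
      · rintro ⟨h1, h2⟩
        rcases hu2 h1 with h3 | h3
        · obtain ⟨i, hi⟩ := h3
          simp only at hi
          refine ⟨y i, ⟨?_, ?_⟩, hi⟩
          · rw [hi]; exact h1
          · rw [hi]; exact h2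
        · exact absurd h3 h2
      · rintro ⟨e, ⟨h1, h2⟩, rfl⟩
        exact ⟨h1, h2⟩
    rw [this, Cardinal.mk_image_eq hφ]
  have hcu2 : Cardinal.mk (u \ Set.range (genX T) : Set (Gen T)) +
      Cardinal.mk (Set.range (genX T)) = Cardinal.mk u := Cardinal.mk_sdiff_add_mk hu1
  have hcX : Cardinal.mk (Set.range (genX T)) = Cardinal.mk {x : Var T // ¬ Pivot T x} :=
    Cardinal.mk_range_eq _ hX.1.injective
  refine ⟨B, hBy, hBi, ?_⟩
  rw [hcu, hcX, ← hcB, ← hKG, hc2, ← Nat.cast_card (α := {x : Var T // ¬ Pivot T x})] at hcu2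
  exact (Cardinal.add_nat_inj _).1 hcu2

lemma trdeg_kU {k L ι : Type} [Field k] [Field L] [Algebra k L] (U : ι → L)
    (hU : AlgebraicIndependent k U) : Algebra.trdeg k (kU k U) = Cardinal.mk ι := by
  have h1 := hU.aevalEquivField.trdeg_eq
  have : Algebra.IsAlgebraic (MvPolynomial ι k) (FractionRing (MvPolynomial ι k)) :=
    IsLocalization.isAlgebraic _ (nonZeroDivisors (MvPolynomial ι k))
  have h2 : IsTranscendenceBasis k (algebraMap (MvPolynomial ι k)
      (FractionRing (MvPolynomial ι k)) ∘ (X : ι → MvPolynomial ι k)) :=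
    (IsTranscendenceBasis.mvPolynomial ι k).algebraMap_comp
  rw [← h1, ← h2.cardinalMk_eq_trdeg]

lemma residue_eq_zero_iff' {k K : Type} [Field k] [Field K] [Algebra k K] (w : DV k K)
    (a : w.vs) : IsLocalRing.residue w.vs a = 0 ↔ a = 0 ∨ 0 < w.ord (a : K) := by
  rw [IsLocalRing.residue_eq_zero_iff, IsLocalRing.mem_maximalIdeal, mem_nonunits_iff]
  constructor
  · intro h
    by_contra hc
    push Not at hc
    obtain ⟨h0, h1⟩ := hc
    apply h
    have h0' : (a : K) ≠ 0 := fun h => h0 (Subtype.ext h)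
    have h2 : (a : K)⁻¹ ∈ w.vs := by
      rw [DV.mem_vs, w.ord_inv]; omega
    exact IsUnit.of_mul_eq_one ⟨(a : K)⁻¹, h2⟩ (Subtype.ext (mul_inv_cancel₀ h0'))
  · rintro (h | h) hu
    · rw [h] at hu
      exact not_isUnit_zero hu
    · obtain ⟨b, hb⟩ := hu.exists_right_inv
      have hb' : (a : K) * (b : K) = 1 := congrArg Subtype.val hb
      have ha0 : (a : K) ≠ 0 := left_ne_zero_of_mul_eq_one hb'
      have hb0 : (b : K) ≠ 0 := right_ne_zero_of_mul_eq_one hb'
      have h3 := w.ord_mul _ _ ha0 hb0
      rw [hb', w.ord_one] at h3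
      have h4 : 0 ≤ w.ord (b : K) := b.2
      omega

lemma ord_pow' {k K : Type} [Field k] [Field K] [Algebra k K] (w : DV k K)
    (a : K) (ha : a ≠ 0) (n : ℕ) : w.ord (a ^ n) = n * w.ord a := by
  induction n with
  | zero => simp [w.ord_one]
  | succ n ih =>
    rw [pow_succ, w.ord_mul _ _ (pow_ne_zero n ha) ha, ih]
    push_cast
    ring

theorem c2 : T_C2 := by
  intro k K L J J' _ _ _ _ _ _ _ _ _ S T U w i0 hT hgen hi0 hind htr hI hwK
  classical
  have hU : ∀ x, 0 ≤ w.ord (U x) := by
    intro x
    have h := w.ord_base ⟨U x, IntermediateField.subset_adjoin _ _ ⟨x, rfl⟩⟩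
    exact h.ge
  let Ut : Var S → w.vs := fun x => ⟨U x, hU x⟩
  let κ : K →+* w.vs := (algebraMap K L).codRestrict w.vs.toSubring (fun x => by
    change 0 ≤ w.ord (algebraMap K L x)
    rw [hwK])
  let _ : Algebra K w.vs := κ.toAlgebra
  let _ : Algebra k w.vs := (κ.comp (algebraMap k K)).toAlgebra
  have tw1 : IsScalarTower k K w.Res := IsScalarTower.of_algebraMap_eq fun x => rfl
  have tw2 : IsScalarTower k (kU k U) w.Res := by
    refine IsScalarTower.of_algebraMap_eq fun x => ?_
    change IsLocalRing.residue w.vs _ = IsLocalRing.residue w.vs _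
    congr 1
    apply Subtype.ext
    change algebraMap K L (algebraMap k K x) = algebraMap k L x
    rw [← IsScalarTower.algebraMap_apply]
  let yt : Var S → w.Res := fun x => IsLocalRing.residue w.vs (Ut x)
  let y : {x : Var S // x.2 ≠ i0 x.1} → w.Res := fun x => yt x
  -- the residues of the pivots
  have hyt : ∀ x : Var S, yt x ∈ IntermediateField.adjoin K (Set.range y) := by
    rintro ⟨j, i⟩
    by_cases hi : i = i0 j
    · subst hi
      have h1 : ∑ i, κ ((S j).s i) * Ut ⟨j, i⟩ = 0 := by
        apply Subtype.ext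
        change _ = (0 : L)
        rw [← hgen.rel j]
        have : ((∑ i, κ ((S j).s i) * Ut ⟨j, i⟩ : w.vs) : L) =
            w.vs.subtype (∑ i, κ ((S j).s i) * Ut ⟨j, i⟩) := rfl
        rw [this, map_sum]
        rfl
      have h2 : ∑ i, algebraMap K w.Res ((S j).s i) * yt ⟨j, i⟩ = 0 := by
        have := congrArg (IsLocalRing.residue w.vs) h1
        rw [map_sum, map_zero] at this
        rw [← this]
        apply Finset.sum_congr rfl
        intro i _
        rw [map_mul]
        rfl
      rw [← Finset.add_sum_erase _ _ (Finset.mem_univ (i0 j))] at h2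
      have h3 : algebraMap K w.Res ((S j).s (i0 j)) ≠ 0 := by
        rw [Ne, map_eq_zero]
        exact hi0 j
      have h4 : yt ⟨j, i0 j⟩ = - (algebraMap K w.Res ((S j).s (i0 j)))⁻¹ *
          ∑ x ∈ Finset.univ.erase (i0 j), algebraMap K w.Res ((S j).s x) * yt ⟨j, x⟩ := by
        field_simp
        linear_combination h2
      rw [h4]
      apply mul_mem
      · apply neg_mem
        apply inv_mem
        exact IntermediateField.algebraMap_mem _ _
      · apply sum_mem
        intro x hx
        apply mul_mem (IntermediateField.algebraMap_mem _ _)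
        exact IntermediateField.subset_adjoin _ _ ⟨⟨⟨j, x⟩, Finset.ne_of_mem_erase hx⟩, rfl⟩
    · exact IntermediateField.subset_adjoin _ _ ⟨⟨⟨j, i⟩, hi⟩, rfl⟩
  have hk1 : ∀ c : kU k U, algebraMap (kU k U) w.Res c ∈
      IntermediateField.adjoin K (Set.range y) := by
    rintro ⟨c, hc⟩
    induction hc using IntermediateField.adjoin_induction with
    | mem x hx =>
      obtain ⟨v, rfl⟩ := hx
      exact hyt v
    | algebraMap x =>
      have h := IntermediateField.algebraMap_mem (IntermediateField.adjoin K (Set.range y))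
        (algebraMap k K x)
      rw [← IsScalarTower.algebraMap_apply k K w.Res, IsScalarTower.algebraMap_apply k (kU k U)
        w.Res] at h
      exact h
    | add a b ha hb iha ihb => exact add_mem iha ihb
    | inv a ha iha =>
      have h := inv_mem iha
      rw [← map_inv₀] at h
      exact h
    | mul a b ha hb iha ihb => exact mul_mem iha ihb
  -- the systems
  have hmo : ∀ j, w.mo ((T j).up L) = 0 := by
    intro j
    unfold DV.mo
    have : {z | ∃ i, ((T j).up L).s i ≠ 0 ∧ w.ord (((T j).up L).s i) = z} = {0} := by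
      ext z
      constructor
      · rintro ⟨i, _, h⟩
        rw [← h]
        exact hwK _
      · rintro rfl
        obtain ⟨i, hi⟩ := hT j
        exact ⟨i, fun h => hi ((map_eq_zero _).1 h), hwK _⟩
    rw [this]
    exact csInf_singleton 0
  have hTs : ∀ j i, (w.res ((T j).up L)).s i = algebraMap K w.Res ((T j).s i) := by
    intro j i
    change w.red (algebraMap K L ((T j).s i) * w.unif ^ (- w.mo ((T j).up L))) = _
    rw [hmo, neg_zero, zpow_zero, mul_one]
    unfold DV.red
    rw [dif_pos (hwK _).ge]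
    rfl
  obtain ⟨hA, B, hB1, hB2, hB3⟩ := abs_count (k := k) (K := K) (k1 := kU k U) (E := w.Res)
    (fun j => w.res ((T j).up L)) (by
      intro j
      obtain ⟨i, hi⟩ := hT j
      refine ⟨i, ?_⟩
      rw [hTs, Ne, map_eq_zero]
      exact hi) hI y hk1 (by
      intro j i
      rw [hTs]
      exact IntermediateField.algebraMap_mem _ _)
  -- the count
  have hc1 := trdeg_add_eq k K (A := w.Res)
  have hc2 := trdeg_add_eq k (kU k U) (A := w.Res)
  rw [trdeg_kU U hind, hA, ← hc1, htr, ← Nat.cast_card, ← card_nonpivot' S i0] at hc2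
  have hBfin : Finite B := by
    have : (Set.range y).Finite := Set.finite_range y
    exact this.subset hB1
  rw [← hB3, ← Nat.cast_card (α := B)] at hc2
  have hc3 : Nat.card {x : Var S // x.2 ≠ i0 x.1} + Fintype.card J + Fintype.card J' =
      Fintype.card J + Fintype.card J' + 1 + Nat.card B := by exact_mod_cast hc2
  have hcard : Nat.card {x : Var S // x.2 ≠ i0 x.1} = Nat.card B + 1 := by omega
  choose g hg using hB1
  let g' : B → {x : Var S // x.2 ≠ i0 x.1} := fun b => g b.2
  have hg' : ∀ b, y (g' b) = b := fun b => hg b.2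
  have hginj : Function.Injective g' := by
    intro a b hab
    apply Subtype.ext
    rw [← hg' a, ← hg' b, hab]
  have hind' : AlgebraicIndependent K (fun b => y (g' b)) := by
    have : (fun b => y (g' b)) = fun b : B => (b : w.Res) := by
      ext b; rw [hg']
    rw [this]
    exact hB2
  -- the evaluation in the valuation ring
  let ev : MvPolynomial {x : Var S // x.2 ≠ i0 x.1} K →ₐ[K] w.vs := aeval (fun x => Ut x)
  have hev1 : ∀ q, ((ev q : w.vs) : L) =
      aeval (fun x : {x : Var S // x.2 ≠ i0 x.1} => U x.1) q := by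
    intro q
    have h : (w.vs.subtype.comp (ev : MvPolynomial {x : Var S // x.2 ≠ i0 x.1} K →+* w.vs)) =
        ((aeval (fun x : {x : Var S // x.2 ≠ i0 x.1} => U x.1) :
          MvPolynomial {x : Var S // x.2 ≠ i0 x.1} K →ₐ[K] L) :
          MvPolynomial {x : Var S // x.2 ≠ i0 x.1} K →+* L) := by
      apply MvPolynomial.ringHom_ext
      · intro r
        simp only [RingHom.comp_apply, RingHom.coe_coe, algHom_C]
        rfl
      · intro x
        simp only [RingHom.comp_apply, RingHom.coe_coe, ev, aeval_X]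
        rfl
    exact congrArg (fun f => f q) h
  have hev2 : ∀ q, IsLocalRing.residue w.vs (ev q) = aeval y q := by
    intro q
    have h : ((IsLocalRing.residue w.vs).comp
        (ev : MvPolynomial {x : Var S // x.2 ≠ i0 x.1} K →+* w.vs)) =
        ((aeval y : MvPolynomial {x : Var S // x.2 ≠ i0 x.1} K →ₐ[K] w.Res) :
          MvPolynomial {x : Var S // x.2 ≠ i0 x.1} K →+* w.Res) := by
      apply MvPolynomial.ringHom_ext
      · intro r
        simp only [RingHom.comp_apply, RingHom.coe_coe, algHom_C]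
        rfl
      · intro x
        simp only [RingHom.comp_apply, RingHom.coe_coe, ev, aeval_X]
        rfl
    exact congrArg (fun f => f q) h
  have hinj : Function.Injective (aeval (fun x : {x : Var S // x.2 ≠ i0 x.1} => U x.1) :
      MvPolynomial {x : Var S // x.2 ≠ i0 x.1} K →ₐ[K] L) := hgen.indep i0 hi0
  have hne : ∀ q : MvPolynomial {x : Var S // x.2 ≠ i0 x.1} K, q ≠ 0 →
      aeval (fun x : {x : Var S // x.2 ≠ i0 x.1} => U x.1) q ≠ 0 := by
    intro q hq h
    exact hq (hinj (by rw [h, map_zero]))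
  have hzero : ∀ q : MvPolynomial {x : Var S // x.2 ≠ i0 x.1} K, q ≠ 0 →
      (aeval y q = 0 ↔
        0 < w.ord (aeval (fun x : {x : Var S // x.2 ≠ i0 x.1} => U x.1) q)) := by
    intro q hq
    rw [← hev2, residue_eq_zero_iff', hev1]
    constructor
    · rintro (h | h)
      · exfalso
        apply hne q hq
        rw [← hev1, h]; rfl
      · exact h
    · exact Or.inr
  have hnn : ∀ q : MvPolynomial {x : Var S // x.2 ≠ i0 x.1} K,
      0 ≤ w.ord (aeval (fun x : {x : Var S // x.2 ≠ i0 x.1} => U x.1) q) := by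
    intro q
    rw [← hev1]
    exact (ev q).2
  -- fractions
  have htop : IntermediateField.adjoin K
      (Set.range (fun x : {x : Var S // x.2 ≠ i0 x.1} => U x.1)) = ⊤ := by
    rw [eq_top_iff, ← hgen.gen, IntermediateField.adjoin_le_iff]
    rintro _ ⟨⟨j, i⟩, rfl⟩
    by_cases hi : i = i0 j
    · subst hi
      have h2 := hgen.rel j
      rw [← Finset.add_sum_erase _ _ (Finset.mem_univ (i0 j))] at h2
      have h3 : algebraMap K L ((S j).s (i0 j)) ≠ 0 := by
        rw [Ne, map_eq_zero]
        exact hi0 j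
      have h4 : U ⟨j, i0 j⟩ = - (algebraMap K L ((S j).s (i0 j)))⁻¹ *
          ∑ x ∈ Finset.univ.erase (i0 j), algebraMap K L ((S j).s x) * U ⟨j, x⟩ := by
        field_simp
        linear_combination h2
      rw [h4]
      apply mul_mem
      · apply neg_mem
        apply inv_mem
        exact IntermediateField.algebraMap_mem _ _
      · apply sum_mem
        intro x hx
        apply mul_mem (IntermediateField.algebraMap_mem _ _)
        exact IntermediateField.subset_adjoin _ _ ⟨⟨⟨j, x⟩, Finset.ne_of_mem_erase hx⟩, rfl⟩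
    · exact IntermediateField.subset_adjoin _ _ ⟨⟨⟨j, i⟩, hi⟩, rfl⟩
  obtain ⟨z, hz0, hz1⟩ := w.ord_surj
  obtain ⟨a, b, hab⟩ := (IntermediateField.mem_adjoin_range_iff K
    (fun x : {x : Var S // x.2 ≠ i0 x.1} => U x.1) z).1 (by rw [htop]; trivial)
  have ha0 : a ≠ 0 := by
    rintro rfl
    rw [map_zero, zero_div] at hab
    exact hz0 hab
  have hb0 : b ≠ 0 := by
    rintro rfl
    rw [map_zero, div_zero] at hab
    exact hz0 hab
  have hord : w.ord (aeval (fun x : {x : Var S // x.2 ≠ i0 x.1} => U x.1) a) =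
      1 + w.ord (aeval (fun x : {x : Var S // x.2 ≠ i0 x.1} => U x.1) b) := by
    have h1 : aeval (fun x : {x : Var S // x.2 ≠ i0 x.1} => U x.1) a =
        z * aeval (fun x : {x : Var S // x.2 ≠ i0 x.1} => U x.1) b := by
      rw [hab, div_mul_cancel₀ _ (hne b hb0)]
    rw [h1, w.ord_mul _ _ hz0 (hne b hb0), hz1]
  have hker : RingHom.ker (aeval y : MvPolynomial {x : Var S // x.2 ≠ i0 x.1} K →ₐ[K] w.Res) ≠ ⊥ := by
    intro h
    have h1 : a ∈ RingHom.ker (aeval y : MvPolynomial {x : Var S // x.2 ≠ i0 x.1} K →ₐ[K] w.Res) := by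
      rw [RingHom.mem_ker]
      apply (hzero a ha0).2
      have := hnn b
      omega
    rw [h] at h1
    exact ha0 h1
  obtain ⟨p, hp1, hp2⟩ := Ideal.IsPrime.exists_mem_prime_of_ne_bot
    (RingHom.ker_isPrime (aeval y : MvPolynomial {x : Var S // x.2 ≠ i0 x.1} K →ₐ[K] w.Res)) hker
  have hdvd : ∀ q, aeval y q = 0 → p ∣ q := fun q hq =>
    dvd_of_aeval_eq_zero y g' hginj hcard.le hind' p hp2.irreducible hp1 q hq
  have hnd : ∀ q : MvPolynomial {x : Var S // x.2 ≠ i0 x.1} K, ¬ p ∣ q →
      w.ord (aeval (fun x : {x : Var S // x.2 ≠ i0 x.1} => U x.1) q) = 0 := by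
    intro q hq
    have hq0 : q ≠ 0 := by
      rintro rfl
      exact hq (dvd_zero p)
    have h1 : ¬ aeval y q = 0 := fun h => hq (hdvd q h)
    rw [hzero q hq0] at h1
    have := hnn q
    omega
  refine ⟨p, hp2.irreducible, ?_, hnd⟩
  have hpo := (hzero p hp2.ne_zero).1 hp1
  obtain ⟨a', ha1, ha2⟩ := (FiniteMultiplicity.of_prime_left hp2 ha0).exists_eq_pow_mul_and_not_dvd
  obtain ⟨b', hb1, hb2⟩ := (FiniteMultiplicity.of_prime_left hp2 hb0).exists_eq_pow_mul_and_not_dvd
  have key : ∀ (c c' : MvPolynomial {x : Var S // x.2 ≠ i0 x.1} K) (n : ℕ), c ≠ 0 →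
      c = p ^ n * c' → ¬ p ∣ c' →
      w.ord (aeval (fun x : {x : Var S // x.2 ≠ i0 x.1} => U x.1) c) =
        n * w.ord (aeval (fun x : {x : Var S // x.2 ≠ i0 x.1} => U x.1) p) := by
    intro c c' n hc0 hc hc'
    have hc'0 : c' ≠ 0 := by
      rintro rfl
      exact hc' (dvd_zero p)
    rw [hc, map_mul, map_pow, w.ord_mul _ _ (pow_ne_zero _ (hne p hp2.ne_zero)) (hne c' hc'0),
      ord_pow' w _ (hne p hp2.ne_zero), hnd c' hc', add_zero]
  rw [key a a' _ ha0 ha1 ha2, key b b' _ hb0 hb1 hb2] at hord
  have hdv : w.ord (aeval (fun x : {x : Var S // x.2 ≠ i0 x.1} => U x.1) p) ∣ 1 :=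
    ⟨(multiplicity p a : ℤ) - multiplicity p b, by linear_combination -hord⟩
  exact Int.eq_one_of_dvd_one hpo.le hdv

end Pool.Agent.H70.KN
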