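import Pool.Agent.H19.KN.Targets

/-! Project KEW, row WA1 of `kna_modules` (helper70): weak approximation for Milnor K-groups. -/

set_option autoImplicit false

namespace Pool.Agent.H70.KN

open Pool.Agent.H62.MK Pool.Agent.H19.KN Polynomial Function

universe u

/-- **WA1** -/
theorem pf_WA1 (hAPW : T_APW.{u}) (hUMEM : T_UMEM.{u}) (hTELE : T_TELE.{u}) : T_WA1.{u} := by
  classical
  intro F _ π q E ι _ R hR hA n hn m
  have key : ∀ (i : ι) (c : MilnorK F (m + 1)), ∃ c' : MilnorK F (m + 1),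
      c' - c ∈ USub q π n (R i) (m + 1) ∧ ∀ j, j ≠ i → c' ∈ USub q π n (R j) (m + 1) := by
    intro i c
    refine MilnorK.induction (p := fun c => ∃ c' : MilnorK F (m + 1),
      c' - c ∈ USub q π n (R i) (m + 1) ∧ ∀ j, j ≠ i → c' ∈ USub q π n (R j) (m + 1)) c
      ?_ ?_ ?_ ?_
    · refine ⟨0, ?_, fun j _ => AddSubgroup.zero_mem _⟩
      rw [sub_zero]
      exact AddSubgroup.zero_mem _
    · intro g
      have h1 : ∀ k : Fin (m + 1), ∃ g' : Fˣ, ∀ j,
          g' / (if j = i then g k else 1) ∈ Small π n (R j) := fun k =>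
        hAPW F π q E ι R hR hA n hn (fun j => if j = i then g k else 1)
      choose g' hg' using h1
      refine ⟨sym g', ?_, ?_⟩
      · have h2 := hTELE F (m + 1) g' g
        refine (AddSubgroup.closure_le _).2 ?_ h2
        rintro z ⟨c, k, rfl, hk, -⟩
        refine (hUMEM F (R i) π q n).2.2.2.1 (m + 1) c k ?_
        rw [hk]
        have h3 := hg' k i
        rwa [if_pos rfl] at h3
      · intro j hj
        refine (hUMEM F (R j) π q n).2.2.2.1 (m + 1) g' 0 ?_
        have h3 := hg' 0 j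
        rwa [if_neg hj, div_one] at h3
    · rintro x ⟨c', h1, h2⟩
      refine ⟨-c', ?_, fun j hj => AddSubgroup.neg_mem _ (h2 j hj)⟩
      have : -c' - -x = -(c' - x) := by abel
      rw [this]
      exact AddSubgroup.neg_mem _ h1
    · rintro x y ⟨c1, h1, h2⟩ ⟨c2, h3, h4⟩
      refine ⟨c1 + c2, ?_, fun j hj => AddSubgroup.add_mem _ (h2 j hj) (h4 j hj)⟩
      have : c1 + c2 - (x + y) = (c1 - x) + (c2 - y) := by abel
      rw [this]
      exact AddSubgroup.add_mem _ h1 h3
  intro c
  choose c' h1 h2 using fun i => key i (c i)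
  refine ⟨∑ i, c' i, fun j => ?_⟩
  have h3 : ∑ i, c' i = c' j + ∑ i ∈ Finset.univ.erase j, c' i :=
    (Finset.add_sum_erase _ _ (Finset.mem_univ j)).symm
  have h4 : ∑ i, c' i - c j = (c' j - c j) + ∑ i ∈ Finset.univ.erase j, c' i := by
    rw [h3]
    abel
  rw [h4]
  refine AddSubgroup.add_mem _ (h1 j) (AddSubgroup.sum_mem _ fun i hi => ?_)
  exact h2 i j (Finset.ne_of_mem_erase hi).symm

end Pool.Agent.H70.KN
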